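import Pool.Agent.P.MP_91dfc6_pr.H.Big

/-! The root of the Rényi entropy power of the marginals fails to be a norm for every order in
`(0, ∞)` and for every negative concavity parameter. -/

set_option autoImplicit false

open MeasureTheory
open scoped Pointwise

namespace Pool.Agent.Results.MP_91dfc6_pr.EveryOrder

open Pool.Agent.P.MP_91dfc6_pr Pool.Agent.P.MP_91dfc6_pr.H

/-- The Rényi entropy of order `p` of a density `g` on the line (Shannon entropy for `p = 1`). -/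
noncomputable def renyi (p : ℝ) (g : ℝ → ℝ) : ℝ :=
  if p = 1 then -∫ x, g x * Real.log (g x) else 1 / (1 - p) * Real.log (∫ x, g x ^ p)

/-- The integral that defines the entropy converges (and is positive when `p ≠ 1`). -/
def FiniteEntropy (p : ℝ) (g : ℝ → ℝ) : Prop :=
  if p = 1 then Integrable fun x => g x * Real.log (g x)
  else (Integrable fun x => g x ^ p) ∧ 0 < ∫ x, g x ^ p

/-- The Rényi entropy power. -/
noncomputable def entropyPower (p : ℝ) (g : ℝ → ℝ) : ℝ := Real.exp (2 * renyi p g)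

/-- `κ`-concavity of a measure on the plane, for a real `κ < 0`. -/
def IsConcave (κ : ℝ) (μ : Measure (Fin 2 → ℝ)) : Prop :=
  ∀ A B : Set (Fin 2 → ℝ), MeasurableSet A → MeasurableSet B → 0 < μ A → 0 < μ B →
    ∀ t : ℝ, 0 ≤ t → t ≤ 1 →
      ENNReal.ofReal ((t * (μ A).toReal ^ κ + (1 - t) * (μ B).toReal ^ κ) ^ (1 / κ)) ≤
        μ (t • A + (1 - t) • B)

theorem result (p : ℝ) (hp : 0 < p) :
    ∃ K : ℝ, 0 < K ∧ (p < 1 → K = p / (1 - p)) ∧ ∀ κ : ℝ, κ < -K →
      ∃ (μ : Measure (Fin 2 → ℝ)) (g : (Fin 2 → ℝ) → ℝ → ℝ),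
        IsProbabilityMeasure μ ∧ μ ≪ volume ∧ μ.map (fun x => -x) = μ ∧ IsConcave κ μ ∧
        (∃ μ₁ μ₂ : Measure ℝ, IsProbabilityMeasure μ₁ ∧ IsProbabilityMeasure μ₂ ∧
          μ.map (fun x => (x 0, x 1)) = μ₁.prod μ₂) ∧
        (∀ v : Fin 2 → ℝ, v ≠ 0 → Measurable (g v) ∧ (∀ x, 0 ≤ g v x) ∧
          μ.map (fun x => ∑ i, v i * x i) = volume.withDensity (fun x => ENNReal.ofReal (g v x)) ∧
          FiniteEntropy p (g v)) ∧
        ∃ b : ℝ, 0 < b ∧ √(entropyPower p (g ![1, 0])) + √(entropyPower p (g ![0, b])) <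
          √(entropyPower p (g ![1, b])) := by
  have sq : ∀ g, √(entropyPower p g) = Real.exp (renyi p g) := fun g => by
    rw [entropyPower, two_mul, Real.exp_add, Real.sqrt_mul_self (Real.exp_pos _).le]
  suffices H : ∃ K : ℝ, 0 < K ∧ (p < 1 → K = p / (1 - p)) ∧ ∀ κ : ℝ, κ < -K → ∃ a : ℝ,
      2 - 1 / κ ≤ a ∧ 1 < a * p ∧ ∃ b : ℝ, 0 < b ∧ Real.exp (renyi p (GH a ![1, 0])) +
        Real.exp (renyi p (GH a ![0, b])) < Real.exp (renyi p (GH a ![1, b])) by
    obtain ⟨K, hK, hKp, H⟩ := H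
    refine ⟨K, hK, hKp, fun κ hκ => ?_⟩
    obtain ⟨a, ha, hap, hb⟩ := H κ hκ
    have hκ0 : κ < 0 := by linarith
    have h1 : 1 / κ < 0 := one_div_neg.2 hκ0
    have ha1 : 1 < a := by linarith
    refine ⟨muH a, GH a, prob_muH ha1, muH_ac a, muH_neg a,
      fun A B hA hB hA0 hB0 t h0 h1 => muH_concave hκ0 ha hA hB hA0 hB0 h0 h1,
      ⟨mU, mH a, inferInstance, prob_mH ha1, muH_prod a⟩,
      fun v hv => ⟨measurable_GH a v, GH_nonneg a v, ?_, ?_⟩, by simpa only [sq] using hb⟩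
    · simp only [ofReal_GH ha1 hv]
      exact map_muH a hv
    · unfold FiniteEntropy
      split_ifs
      · exact integrable_GH_log (by linarith) hv
      · exact ⟨integrable_GH_pow ha1 hp hap hv, integral_GH_pow_pos ha1 hp hap hv⟩
  have ne : p ≠ 1 → ∀ a : ℝ, 1 < a → 1 < a * p → ∀ v : Fin 2 → ℝ, v ≠ 0 →
      Real.exp (renyi p (GH a v)) = (∫ t, GH a v t ^ p) ^ (1 / (1 - p)) := by
    intro h a ha hap v hv
    rw [renyi, if_neg h, Real.rpow_def_of_pos (integral_GH_pow_pos ha hp hap hv), mul_comm]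
  have big : ∀ L κ : ℝ, 1 ≤ L → κ < -L → 2 - 1 / κ ≤ 2 + 1 / L := by
    intro L κ hL hκ
    have := one_div_le_one_div_of_le (by linarith : 0 < L) (by linarith : L ≤ -κ)
    rw [div_neg] at this
    linarith
  rcases lt_trichotomy p 1 with h | h | h
  · have h1 : 0 < 1 - p := by linarith
    refine ⟨p / (1 - p), by positivity, fun _ => rfl, fun κ hκ => ?_⟩
    have h2 : 2 - 1 / κ < 1 + 1 / p := by
      have h3 := one_div_lt_one_div_of_lt (div_pos hp h1) (by linarith : p / (1 - p) < -κ)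
      rw [div_neg, one_div_div, sub_div, div_self hp.ne'] at h3
      linarith
    obtain ⟨a, h4, h5⟩ := exists_between (max_lt h2 (by linarith : 1 / p < 1 + 1 / p))
    obtain ⟨h6, h7⟩ := max_lt_iff.1 h4
    rw [div_lt_iff₀ hp] at h7
    have h8 : (a - 1) * p < 1 := by rw [← lt_div_iff₀ hp]; linarith
    have ha : 1 < a := by nlinarith
    obtain ⟨b, hb, hv⟩ := violation_lt ha hp h h7 h8
    obtain ⟨f1, f2, f3⟩ := vec_facts hb
    exact ⟨a, h6.le, h7, b, hb, by
      rwa [ne h.ne a ha h7 _ f1, ne h.ne a ha h7 _ f2, ne h.ne a ha h7 _ f3]⟩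
  · obtain ⟨L, hL, b, hb, hv⟩ := violation_one
    have h1 : 0 < 1 / L := by positivity
    exact ⟨L, by linarith, fun h' => absurd h h'.ne, fun κ hκ => ⟨2 + 1 / L, big L κ hL hκ,
      by rw [h]; linarith, b, hb, by simpa only [renyi, if_pos h] using hv⟩⟩
  · obtain ⟨L, hL, b, hb, hv⟩ := violation_gt h
    have h1 : 0 < 1 / L := by positivity
    have ha : 1 < 2 + 1 / L := by linarith
    have h7 : 1 < (2 + 1 / L) * p := by nlinarith
    obtain ⟨f1, f2, f3⟩ := vec_facts hb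
    exact ⟨L, by linarith, fun h' => absurd h h'.not_gt, fun κ hκ => ⟨2 + 1 / L, big L κ hL hκ,
      h7, b, hb, by rwa [ne h.ne' _ ha h7 _ f1, ne h.ne' _ ha h7 _ f2, ne h.ne' _ ha h7 _ f3]⟩⟩

end Pool.Agent.Results.MP_91dfc6_pr.EveryOrder
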